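import Mathlib
import Pool.Agent.N446.ZS.Fin
import Pool.Agent.N446.ZS.T_AD
import Pool.Agent.N446.ZS.T_BD
import Pool.Agent.N446.ZS.T_EC
import Pool.Agent.N446.ZS.T_I7
import Pool.Agent.N446.ZS.T_IN
import Pool.Agent.N446.ZS.T_K3
import Pool.Agent.N446.ZS.T_KN
import Pool.Agent.N446.ZS.T_KS
import Pool.Agent.N446.ZS.N9x
import Pool.Agent.N446.ZS.T_NI
import Pool.Agent.N446.ZS.T_NM
import Pool.Agent.N446.ZS.T_PO
import Pool.Agent.N446.ZS.T_RI
import Pool.Agent.N446.ZS.T_ST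
import Pool.Agent.N446.ZS.T_TR
import Pool.Agent.N446.ZS.T_TW

set_option autoImplicit false

namespace Pool.Agent.Results.MP_2da030_co.ZeroSumRamsey

open Pool.Agent.N446.ZS

/-- Let `G` be a graph with `n` vertices whose number of edges is divisible by `3`, and let `R` be
the zero-sum Ramsey number `R(G, ℤ/3)`: the least `R ≥ 1` such that for every `N ≥ R` and every
colouring `f` of the edges of the complete graph on `N` vertices by elements of `ℤ/3` there is a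
copy `φ` of `G` with zero sum. Then `R` exists, `R ≤ n + 8`, and `R = n + 8` if and only if
`G ≅ K₃`. If `G` has no isolated vertex and is not `K₃`, then `R ≤ n + 6`. -/
theorem result (n : ℕ) (G : SimpleGraph (Fin n)) [DecidableRel G.Adj]
    (h3 : 3 ∣ G.edgeFinset.card) :
    ∃ R : ℕ, IsLeast {R : ℕ | 0 < R ∧ ∀ N : ℕ, R ≤ N → ∀ f : Sym2 (Fin N) → ZMod 3,
        ∃ φ : Fin n ↪ Fin N, ∑ e ∈ G.edgeFinset, f (e.map φ) = 0} R ∧
      R ≤ n + 8 ∧
      (R = n + 8 ↔ Nonempty (G ≃g (⊤ : SimpleGraph (Fin 3)))) ∧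
      ((∀ a, ∃ b, G.Adj a b) → ¬ Nonempty (G ≃g (⊤ : SimpleGraph (Fin 3))) → R ≤ n + 6) := by
  have hAD : S_AD := t_AD t_PO t_IN
  have hK3 : S_K3 := t_K3
  have hKS : S_KS := t_KS t_I7 t_EC
  have hKN : S_KN := t_KN t_I7 hKS hK3 hAD
  have hNM : S_NM := t_NM t_BD hAD
  have hTW : S_TW := t_TW t_BD hAD t_N9
  have hST : S_ST := t_ST t_IN
  have hNI : S_NI := t_NI t_TR hNM hTW hST hKN hK3
  exact zs_main hNI t_RI t_CO t_LB G h3

end Pool.Agent.Results.MP_2da030_co.ZeroSumRamsey
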